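import Mathlib

/-!
# The compact dual group of a discrete abelian group

`Dual Γ` is the compact group of all homomorphisms from the (discrete) abelian group `Γ` to the
circle, with the topology of pointwise convergence and its normalised Haar measure.
-/

open MeasureTheory Filter Set Topology

namespace Pool.Agent.H32.L1

/-- Homomorphisms to the circle, as a subgroup of the product. -/
def dualSubgroup (Γ : Type*) [AddCommGroup Γ] : Subgroup (Γ → Circle) where
  carrier := {χ | ∀ a b, χ (a + b) = χ a * χ b}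
  mul_mem' := by
    intro χ ψ hχ hψ a b
    simp only [Pi.mul_apply, hχ a b, hψ a b]
    exact mul_mul_mul_comm _ _ _ _
  one_mem' := by intro a b; simp
  inv_mem' := by
    intro χ hχ a b
    simp only [Pi.inv_apply, hχ a b, mul_inv]

/-- The compact dual group of the discrete group `Γ`. -/
def Dual (Γ : Type*) [AddCommGroup Γ] : Type _ := ↥(dualSubgroup Γ)

section basics

variable {Γ : Type*} [AddCommGroup Γ]

noncomputable instance : CommGroup (Dual Γ) := inferInstanceAs (CommGroup ↥(dualSubgroup Γ))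

instance : TopologicalSpace (Dual Γ) := inferInstanceAs (TopologicalSpace ↥(dualSubgroup Γ))

instance : IsTopologicalGroup (Dual Γ) := inferInstanceAs (IsTopologicalGroup ↥(dualSubgroup Γ))

instance : T2Space (Dual Γ) := inferInstanceAs (T2Space ↥(dualSubgroup Γ))

instance : MeasurableSpace (Dual Γ) := borel _

instance : BorelSpace (Dual Γ) := ⟨rfl⟩

instance : FunLike (Dual Γ) Γ Circle where
  coe χ := χ.1
  coe_injective := fun _ _ h => Subtype.ext h

lemma Dual.ext {χ ψ : Dual Γ} (h : ∀ y, χ y = ψ y) : χ = ψ := DFunLike.ext _ _ h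

lemma isClosed_dualSubgroup : IsClosed (dualSubgroup Γ : Set (Γ → Circle)) := by
  have : (dualSubgroup Γ : Set (Γ → Circle)) =
      ⋂ a : Γ, ⋂ b : Γ, {χ : Γ → Circle | χ (a + b) = χ a * χ b} := by
    ext χ
    simp [dualSubgroup]
  rw [this]
  refine isClosed_iInter fun a => isClosed_iInter fun b => ?_
  exact isClosed_eq (continuous_apply _) ((continuous_apply a).mul (continuous_apply b))

instance : CompactSpace (Dual Γ) :=
  isCompact_iff_compactSpace.mp (isClosed_dualSubgroup (Γ := Γ)).isCompact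

@[simp] lemma Dual.map_add (χ : Dual Γ) (a b : Γ) : χ (a + b) = χ a * χ b := χ.2 a b

@[simp] lemma Dual.map_zero (χ : Dual Γ) : χ 0 = 1 := by
  have h := χ.map_add 0 0
  rw [add_zero] at h
  exact left_eq_mul.mp h

lemma Dual.map_neg (χ : Dual Γ) (a : Γ) : χ (-a) = (χ a)⁻¹ := by
  have h := χ.map_add a (-a)
  rw [add_neg_cancel, Dual.map_zero] at h
  exact eq_inv_of_mul_eq_one_right h.symm

@[simp] lemma Dual.mul_apply (χ ψ : Dual Γ) (a : Γ) : (χ * ψ) a = χ a * ψ a := rfl

@[simp] lemma Dual.one_apply (a : Γ) : (1 : Dual Γ) a = 1 := rfl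

lemma Dual.continuous_apply (a : Γ) : Continuous fun χ : Dual Γ => χ a :=
  (_root_.continuous_apply a).comp continuous_subtype_val

lemma Dual.tendsto_nhds {α : Type*} {l : Filter α} {f : α → Dual Γ} {χ : Dual Γ} :
    Tendsto f l (𝓝 χ) ↔ ∀ a, Tendsto (fun i => f i a) l (𝓝 (χ a)) := by
  have : Tendsto f l (𝓝 χ) ↔ Tendsto (fun i => (f i).1) l (𝓝 χ.1) :=
    tendsto_subtype_rng
  rw [this, tendsto_pi_nhds]
  rfl

lemma Dual.continuous_iff {α : Type*} [TopologicalSpace α] {f : α → Dual Γ} :
    Continuous f ↔ ∀ a, Continuous fun i => f i a := by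
  constructor
  · intro h a
    exact (Dual.continuous_apply a).comp h
  · intro h
    exact Continuous.subtype_mk (continuous_pi h) _

/-- The normalised Haar measure of the dual group. -/
noncomputable def haar (Γ : Type*) [AddCommGroup Γ] : Measure (Dual Γ) :=
  Measure.haarMeasure (⊤ : TopologicalSpace.PositiveCompacts (Dual Γ))

instance : (haar Γ).IsHaarMeasure := Measure.isHaarMeasure_haarMeasure _

instance : IsProbabilityMeasure (haar Γ) := by
  constructor
  have h := Measure.haarMeasure_self (K₀ := (⊤ : TopologicalSpace.PositiveCompacts (Dual Γ)))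
  rwa [TopologicalSpace.PositiveCompacts.coe_top] at h

/-- The character `χ ↦ χ y` as a continuous function. -/
noncomputable def ev (y : Γ) : C(Dual Γ, ℂ) :=
  ⟨fun χ => (χ y : ℂ), continuous_subtype_val.comp (Dual.continuous_apply y)⟩

@[simp] lemma ev_apply (y : Γ) (χ : Dual Γ) : ev y χ = (χ y : ℂ) := rfl

lemma ev_zero : (ev (0 : Γ)) = 1 := by
  ext χ; simp

lemma ev_add (a b : Γ) : ev (a + b) = ev a * ev b := by
  ext χ; simp

lemma norm_ev_apply (y : Γ) (χ : Dual Γ) : ‖ev y χ‖ = 1 := by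
  rw [ev_apply]; exact Circle.norm_coe _

lemma norm_ev (y : Γ) : ‖ev y‖ = 1 := by
  apply le_antisymm
  · rw [ContinuousMap.norm_le _ zero_le_one]
    intro χ; exact (norm_ev_apply y χ).le
  · rw [← norm_ev_apply y 1]
    exact ContinuousMap.norm_coe_le_norm _ _

lemma star_ev (y : Γ) : star (ev y) = ev (-y) := by
  ext χ
  rw [ContinuousMap.star_apply, ev_apply, ev_apply, Dual.map_neg, Circle.coe_inv_eq_conj]
  rfl

end basics

/-! ### Exponential characters -/

section expo

variable {Γ : Type*} [AddCommGroup Γ] [Module ℚ Γ]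

/-- The character `y ↦ exp (i φ(y))`. -/
noncomputable def expD (φ : Γ →ₗ[ℚ] ℝ) : Dual Γ :=
  ⟨fun y => Circle.exp (φ y), fun a b => by simp only [map_add, Circle.exp_add]⟩

@[simp] lemma expD_apply (φ : Γ →ₗ[ℚ] ℝ) (y : Γ) : expD φ y = Circle.exp (φ y) := rfl

lemma expD_add (φ ψ : Γ →ₗ[ℚ] ℝ) : expD (φ + ψ) = expD φ * expD ψ := by
  apply Dual.ext; intro y
  simp [Circle.exp_add]

lemma expD_zero : expD (0 : Γ →ₗ[ℚ] ℝ) = 1 := by
  apply Dual.ext; intro y
  simp

/-- A nonzero element is detected by some linear functional. -/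
lemma exists_functional {p : Submodule ℚ Γ} {y : Γ} (hy : y ∉ p) (r : ℝ) :
    ∃ φ : Γ →ₗ[ℚ] ℝ, φ y = r ∧ ∀ z ∈ p, φ z = 0 := by
  obtain ⟨φ, h1, h2⟩ := LinearMap.exists_extend_of_notMem (K := ℚ) (0 : p →ₗ[ℚ] ℝ) hy r
  refine ⟨φ, h2, fun z hz => ?_⟩
  have := congrArg (fun f => f ⟨z, hz⟩) h1
  simpa using this

end expo

end Pool.Agent.H32.L1
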