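import Pool.Agent.H32.L1.Basic

/-!
# Fourier series with absolutely summable coefficients
-/

open MeasureTheory Filter Set Topology

namespace Pool.Agent.H32.L1

section four

set_option linter.unusedSectionVars false

variable {Γ : Type*} [AddCommGroup Γ]

/-- The Fourier series of an absolutely summable function, as a continuous function on the dual
group (junk value `0` if the series does not converge). -/
noncomputable def hat (u : Γ → ℂ) : C(Dual Γ, ℂ) := ∑' y, u y • ev y

lemma summable_smul_ev {u : Γ → ℂ} (hu : Summable fun y => ‖u y‖) :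
    Summable fun y => u y • ev y := by
  apply Summable.of_norm
  simpa [norm_smul, norm_ev] using hu

lemma hasSum_hat_apply {u : Γ → ℂ} (hu : Summable fun y => ‖u y‖) (χ : Dual Γ) :
    HasSum (fun y => u y * (χ y : ℂ)) (hat u χ) := by
  have h := (summable_smul_ev hu).hasSum
  exact (ContinuousMap.hasSum_apply h χ)

lemma hat_apply {u : Γ → ℂ} (hu : Summable fun y => ‖u y‖) (χ : Dual Γ) :
    hat u χ = ∑' y, u y * (χ y : ℂ) := (hasSum_hat_apply hu χ).tsum_eq.symm

lemma norm_hat_le {u : Γ → ℂ} (hu : Summable fun y => ‖u y‖) :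
    ‖hat u‖ ≤ ∑' y, ‖u y‖ := by
  have h : ∀ y, ‖u y • ev y‖ = ‖u y‖ := fun y => by rw [norm_smul, norm_ev, mul_one]
  refine (norm_tsum_le_tsum_norm (by simpa only [h] using hu)).trans (le_of_eq ?_)
  simp only [h]

lemma norm_hat_apply_le {u : Γ → ℂ} (hu : Summable fun y => ‖u y‖) (χ : Dual Γ) :
    ‖hat u χ‖ ≤ ∑' y, ‖u y‖ := (ContinuousMap.norm_coe_le_norm _ _).trans (norm_hat_le hu)

/-- Convolution. -/
noncomputable def conv (u w : Γ → ℂ) (y : Γ) : ℂ := ∑' a, u a * w (y - a)

lemma summable_prod {u w : Γ → ℂ} (hu : Summable fun y => ‖u y‖) (hw : Summable fun y => ‖w y‖) :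
    Summable fun p : Γ × Γ => ‖u p.1 * w p.2‖ := by
  simpa [norm_mul] using hu.mul_of_nonneg hw (fun _ => norm_nonneg _) (fun _ => norm_nonneg _)

/-- The change of variables `(y, a) ↦ (a, y - a)`. -/
def shear (Γ : Type*) [AddCommGroup Γ] : Γ × Γ ≃ Γ × Γ where
  toFun p := (p.2, p.1 - p.2)
  invFun p := (p.1 + p.2, p.1)
  left_inv p := by simp
  right_inv p := by simp

lemma summable_shear {u w : Γ → ℂ} (hu : Summable fun y => ‖u y‖) (hw : Summable fun y => ‖w y‖) :
    Summable fun p : Γ × Γ => ‖u p.2 * w (p.1 - p.2)‖ :=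
  (shear Γ).summable_iff.mpr (summable_prod hu hw)

lemma summable_norm_conv {u w : Γ → ℂ} (hu : Summable fun y => ‖u y‖)
    (hw : Summable fun y => ‖w y‖) : Summable fun y => ‖conv u w y‖ := by
  have h := summable_shear hu hw
  refine Summable.of_nonneg_of_le (fun _ => norm_nonneg _) (fun y => ?_) h.prod
  exact norm_tsum_le_tsum_norm (h.prod_factor y)

lemma tsum_norm_conv_le {u w : Γ → ℂ} (hu : Summable fun y => ‖u y‖)
    (hw : Summable fun y => ‖w y‖) :
    ∑' y, ‖conv u w y‖ ≤ (∑' y, ‖u y‖) * ∑' y, ‖w y‖ := by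
  have h := summable_shear hu hw
  calc ∑' y, ‖conv u w y‖ ≤ ∑' y, ∑' a, ‖u a * w (y - a)‖ := by
        refine Summable.tsum_le_tsum (fun y => norm_tsum_le_tsum_norm (h.prod_factor y))
          (summable_norm_conv hu hw) h.prod
    _ = ∑' p : Γ × Γ, ‖u p.2 * w (p.1 - p.2)‖ := (h.tsum_prod).symm
    _ = ∑' p : Γ × Γ, ‖u p.1 * w p.2‖ := (shear Γ).tsum_eq (fun p => ‖u p.1 * w p.2‖)
    _ = _ := by
        simp only [norm_mul]
        exact (Summable.tsum_mul_tsum hu hw (by simpa [norm_mul] using summable_prod hu hw)).symm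

lemma hat_conv {u w : Γ → ℂ} (hu : Summable fun y => ‖u y‖) (hw : Summable fun y => ‖w y‖) :
    hat (conv u w) = hat u * hat w := by
  ext χ
  rw [ContinuousMap.mul_apply, hat_apply (summable_norm_conv hu hw), hat_apply hu, hat_apply hw]
  have hu' : Summable fun y => ‖u y * (χ y : ℂ)‖ := by simpa [Circle.norm_coe] using hu
  have hw' : Summable fun y => ‖w y * (χ y : ℂ)‖ := by simpa [Circle.norm_coe] using hw
  rw [tsum_mul_tsum_of_summable_norm hu' hw']
  have h := (summable_prod hu' hw')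
  have h2 := (summable_shear hu' hw').of_norm
  rw [← (shear Γ).tsum_eq (fun p : Γ × Γ => u p.1 * (χ p.1 : ℂ) * (w p.2 * (χ p.2 : ℂ)))]
  have h3 : ∀ p : Γ × Γ, (fun p : Γ × Γ => u p.1 * (χ p.1 : ℂ) * (w p.2 * (χ p.2 : ℂ)))
      (shear Γ p) = (fun y => u y * (χ y : ℂ)) p.2 * (fun y => w y * (χ y : ℂ)) (p.1 - p.2) := by
    intro p; rfl
  simp only [h3]
  rw [h2.tsum_prod]
  refine tsum_congr fun y => ?_
  rw [conv, ← tsum_mul_right]
  refine tsum_congr fun a => ?_
  have : χ y = χ a * χ (y - a) := by rw [← Dual.map_add]; congr 1; abel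
  rw [this, Circle.coe_mul]
  ring

end four

section integral

variable {Γ : Type*} [AddCommGroup Γ] [Module ℚ Γ]

lemma integrable_cont {E : Type*} [NormedAddCommGroup E] [NormedSpace ℝ E] {f : Dual Γ → E}
    (hf : Continuous f) : Integrable f (haar Γ) := by
  have := hf.integrable_of_hasCompactSupport (μ := haar Γ) (HasCompactSupport.of_compactSpace f)
  exact this

lemma integral_translate {E : Type*} [NormedAddCommGroup E] [NormedSpace ℝ E] (f : Dual Γ → E)
    (ψ : Dual Γ) : ∫ χ, f (χ * ψ) ∂(haar Γ) = ∫ χ, f χ ∂(haar Γ) := by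
  simp_rw [mul_comm _ ψ]
  exact integral_mul_left_eq_self f ψ

lemma integral_ev_ne {y : Γ} (hy : y ≠ 0) : ∫ χ, ev y χ ∂(haar Γ) = 0 := by
  obtain ⟨φ, h1, -⟩ := exists_functional (p := ⊥) (y := y) (by simpa using hy) Real.pi
  have h := integral_translate (fun χ => ev y χ) (expD φ)
  simp only [ev_apply, Dual.mul_apply, Circle.coe_mul, expD_apply, h1] at h
  rw [integral_mul_const] at h
  have h2 : ((Circle.exp Real.pi : Circle) : ℂ) ≠ 1 := by
    rw [Ne, Circle.coe_eq_one]
    exact Circle.exp_pi_ne_one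
  have h3 : (∫ χ : Dual Γ, ((χ y : Circle) : ℂ) ∂(haar Γ)) * (((Circle.exp Real.pi : Circle) : ℂ) - 1) = 0 := by
    rw [mul_sub, h, mul_one, sub_self]
  rcases mul_eq_zero.mp h3 with h4 | h4
  · exact h4
  · exact absurd (sub_eq_zero.mp h4) h2

lemma integral_ev [DecidableEq Γ] (y : Γ) :
    ∫ χ, ev y χ ∂(haar Γ) = if y = 0 then 1 else 0 := by
  split_ifs with h
  · subst h
    simp [ev_zero]
  · exact integral_ev_ne h

/-- Integration as a continuous linear functional. -/
noncomputable def intL (Γ : Type*) [AddCommGroup Γ] [Module ℚ Γ] : C(Dual Γ, ℂ) →L[ℂ] ℂ :=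
  LinearMap.mkContinuous
    { toFun := fun f => ∫ χ, f χ ∂(haar Γ)
      map_add' := fun f g => by
        simp only [ContinuousMap.add_apply]
        exact integral_add (integrable_cont f.continuous) (integrable_cont g.continuous)
      map_smul' := fun c f => by
        simp only [ContinuousMap.smul_apply, RingHom.id_apply]
        exact integral_smul c _ } 1 (fun f => by
    rw [one_mul]
    refine (norm_integral_le_integral_norm _).trans ?_
    calc ∫ χ, ‖f χ‖ ∂(haar Γ) ≤ ∫ _χ : Dual Γ, ‖f‖ ∂(haar Γ) := by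
          apply integral_mono (integrable_cont f.continuous.norm) (integrable_const _)
          intro χ
          exact ContinuousMap.norm_coe_le_norm _ _
      _ = ‖f‖ := by simp)

@[simp] lemma intL_apply (f : C(Dual Γ, ℂ)) : intL Γ f = ∫ χ, f χ ∂(haar Γ) := rfl

lemma integral_hat {u : Γ → ℂ} (hu : Summable fun y => ‖u y‖) :
    ∫ χ, hat u χ ∂(haar Γ) = u 0 := by
  classical
  rw [← intL_apply, hat, (intL Γ).map_tsum (summable_smul_ev hu)]
  simp only [map_smul, intL_apply, integral_ev, smul_eq_mul]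
  rw [tsum_eq_single 0 (fun y hy => by simp [hy])]
  simp

end integral

end Pool.Agent.H32.L1
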